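import Pool.Agent.H484.AL.Stm

namespace Pool.Agent.H484.AL

open Finset
open scoped Classical

namespace SINGLE278

/-- the inner condition, with the coordinate `i0` isolated -/
theorem ev_iff (n g M a0 : ℕ) (α l : Fin (n+1) → ℕ) (A L : ℕ) (i0 : Fin (n+1))
    (hg : 1 ≤ g) (lam : ℕ) (hlam : ∑ i, α i * l i = g * lam)
    (x : Fin M) (r : Fin n → Fin M) :
    Ev (n+1) g M a0 α (fun i => ((Fin.insertNth (α := fun _ => Fin M) i0 x r i : Fin M) : ℕ)) l A L ↔
      ∃ k : ℕ, A < k ∧ k ≤ A + L ∧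
        M ∣ a0 * k + (lam + ∑ j, ((r j : Fin M) : ℕ) * l (i0.succAbove j)) + l i0 * (x : ℕ) := by
  unfold Ev
  have key : ∀ k : ℕ, g * a0 * k + ∑ i, (α i + g * ((Fin.insertNth (α := fun _ => Fin M) i0 x r i : Fin M) : ℕ)) * l i
      = g * (a0 * k + (lam + ∑ j, ((r j : Fin M) : ℕ) * l (i0.succAbove j)) + l i0 * (x : ℕ)) := by
    intro k
    have h1 : ∑ i, (α i + g * ((Fin.insertNth (α := fun _ => Fin M) i0 x r i : Fin M) : ℕ)) * l i
        = ∑ i, α i * l i + g * ∑ i, ((Fin.insertNth (α := fun _ => Fin M) i0 x r i : Fin M) : ℕ) * l i := by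
      rw [Finset.mul_sum, ← Finset.sum_add_distrib]
      refine Finset.sum_congr rfl (fun i _ => ?_)
      ring
    have h2 : ∑ i, ((Fin.insertNth (α := fun _ => Fin M) i0 x r i : Fin M) : ℕ) * l i
        = (x : ℕ) * l i0 + ∑ j, ((r j : Fin M) : ℕ) * l (i0.succAbove j) := by
      rw [Fin.sum_univ_succAbove _ i0]
      simp only [Fin.insertNth_apply_same, Fin.insertNth_apply_succAbove]
    rw [h1, h2, hlam]
    ring
  constructor
  · rintro ⟨k, h1, h2, h3⟩
    refine ⟨k, h1, h2, ?_⟩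
    rw [key k] at h3
    exact Nat.dvd_of_mul_dvd_mul_left hg h3
  · rintro ⟨k, h1, h2, h3⟩
    refine ⟨k, h1, h2, ?_⟩
    rw [key k]
    exact Nat.mul_dvd_mul_left g h3

/-- a count over `Fin M` is a count over `range M` -/
theorem sum_fin_eq (M : ℕ) (P : ℕ → Prop) :
    (∑ x : Fin M, if P (x : ℕ) then 1 else 0) = ((range M).filter P).card := by
  rw [Finset.card_filter, Finset.sum_range]

/-- the count over `Fin (n+1) → Fin M` is a sum of one-dimensional counts -/
theorem card_eq (n M : ℕ) (i0 : Fin (n+1)) (P : (Fin (n+1) → Fin M) → Prop) :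
    (univ.filter P).card
      = ∑ r : Fin n → Fin M, ∑ x : Fin M, if P (Fin.insertNth (α := fun _ => Fin M) i0 x r) then 1 else 0 := by
  rw [Finset.card_filter]
  rw [← (Fin.insertNthEquiv (fun _ => Fin M) i0).sum_comp]
  rw [Fintype.sum_prod_type_right]
  rfl

end SINGLE278

open SINGLE278 in
theorem t_SINGLE (hINTV : S_INTV) : S_SINGLE := by
  intro e g M a0 α l A L i0 hg hM hcop hL hl hdvd
  obtain ⟨n, rfl⟩ : ∃ n, e = n + 1 := by
    cases e with
    | zero => exact i0.elim0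
    | succ n => exact ⟨n, rfl⟩
  obtain ⟨lam, hlam⟩ := hdvd
  rw [Nat.add_sub_cancel]
  have hcard := card_eq n M i0
    (fun b : Fin (n+1) → Fin M => Ev (n+1) g M a0 α (fun i => (b i : ℕ)) l A L)
  have hinner : ∀ r : Fin n → Fin M,
      (∑ x : Fin M, if Ev (n+1) g M a0 α (fun i => ((Fin.insertNth (α := fun _ => Fin M) i0 x r i : Fin M) : ℕ)) l A L then 1 else 0)
        = ((range M).filter (fun b => ∃ k : ℕ, A < k ∧ k ≤ A + L ∧
            M ∣ a0 * k + (lam + ∑ j, ((r j : Fin M) : ℕ) * l (i0.succAbove j)) + l i0 * b)).card := by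
    intro r
    rw [← sum_fin_eq]
    refine Finset.sum_congr rfl (fun x _ => ?_)
    exact if_congr (ev_iff n g M a0 α l A L i0 hg lam hlam x r) rfl rfl
  have hgcd : Nat.gcd (l i0) M ≤ l i0 := Nat.gcd_le_left M hl
  have hcardr : (Finset.univ : Finset (Fin n → Fin M)).card = M ^ n := by
    rw [Finset.card_univ, Fintype.card_fun, Fintype.card_fin, Fintype.card_fin]
  have hsum : (univ.filter (fun b : Fin (n+1) → Fin M => Ev (n+1) g M a0 α (fun i => (b i : ℕ)) l A L)).card
      = ∑ r : Fin n → Fin M, ((range M).filter (fun b => ∃ k : ℕ, A < k ∧ k ≤ A + L ∧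
            M ∣ a0 * k + (lam + ∑ j, ((r j : Fin M) : ℕ) * l (i0.succAbove j)) + l i0 * b)).card := by
    rw [hcard]
    exact Finset.sum_congr rfl (fun r _ => hinner r)
  rw [hsum]
  constructor
  · calc ∑ r : Fin n → Fin M, ((range M).filter (fun b => ∃ k : ℕ, A < k ∧ k ≤ A + L ∧
            M ∣ a0 * k + (lam + ∑ j, ((r j : Fin M) : ℕ) * l (i0.succAbove j)) + l i0 * b)).card
        ≤ ∑ r : Fin n → Fin M, (L + l i0) := by
          refine Finset.sum_le_sum (fun r _ => ?_)
          have := (hINTV M (l i0) (lam + ∑ j, ((r j : Fin M) : ℕ) * l (i0.succAbove j)) a0 A L hM hcop hL).1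
          omega
      _ = (L + l i0) * M ^ n := by
          rw [Finset.sum_const, hcardr, smul_eq_mul, mul_comm]
  · have h1 : ∑ r : Fin n → Fin M, L ≤ ∑ r : Fin n → Fin M,
        (((range M).filter (fun b => ∃ k : ℕ, A < k ∧ k ≤ A + L ∧
            M ∣ a0 * k + (lam + ∑ j, ((r j : Fin M) : ℕ) * l (i0.succAbove j)) + l i0 * b)).card + l i0) := by
      refine Finset.sum_le_sum (fun r _ => ?_)
      have := (hINTV M (l i0) (lam + ∑ j, ((r j : Fin M) : ℕ) * l (i0.succAbove j)) a0 A L hM hcop hL).2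
      omega
    rw [Finset.sum_add_distrib, Finset.sum_const, Finset.sum_const, hcardr, smul_eq_mul, smul_eq_mul] at h1
    rw [mul_comm L, mul_comm (l i0)]
    exact h1

end Pool.Agent.H484.AL
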